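import Pool.Agent.Helper43.HF.Defs
import Pool.Agent.Helper43.HF.P1_VAL
import Pool.Agent.Helper43.HF.P2_LEV
import Pool.Agent.Helper43.HF.P3_RES
import Pool.Agent.Helper43.HF.P4_FIN
import Pool.Agent.Helper43.HF.P5_QUAT
import Pool.Agent.Helper43.HF.P6_TRANS

/-!
# A finite hyperfield which is a quotient of a skew field but not of a field

Question 2 of MP_4a7e1d_al has a negative answer.  The skew field is the quaternion algebra
`(-1, -3)` over `ℚ` and `Γ` is the group of its elements whose norm is `3 ^ (11 k) u` with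
`u ≡ 1` modulo `27`; the hyperfield `F / Γ` is finite.  The definitions `Quo` (the underlying set
`{0} ∪ Fˣ / Γ`), `cls` (the class `[x]`), `hadd` (the hyperaddition) and `IsIso` (isomorphism of the
two quotient hyperfields) are in `Pool/Agent/Helper43/HF/Defs.lean`.
-/

universe u

namespace Pool.Agent.Results.MP_4a7e1d_al.FiniteIndex

open HFQ

/-- There are a skew field `F` and a normal subgroup `Γ` of finite index in `Fˣ`, with
`Fˣ / Γ` commutative, such that the finite hyperfield `F / Γ` is not isomorphic to `K / Δ` for any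
field `K` (in any universe) and any subgroup `Δ` of `Kˣ`. -/
theorem result : ∃ (F : Type) (_ : DivisionRing F) (Γ : Subgroup Fˣ) (_ : Γ.Normal),
    Γ.FiniteIndex ∧ (∀ a b : Fˣ ⧸ Γ, a * b = b * a) ∧
    ∀ (K : Type u) [Field K] (Δ : Subgroup Kˣ) (f : Quo F Γ ≃ Quo K Δ), ¬ IsIso Γ Δ f := by
  obtain ⟨D, iD, Γ, iN, V, χ, hfin, hcomm, hD, hΓ⟩ := quat
  refine ⟨D, iD, Γ, iN, hfin, hcomm, ?_⟩
  intro K _ Δ f hf
  obtain ⟨V', χ', h⟩ := trans hD hΓ Δ f hf
  obtain ⟨O, h1, h2⟩ := val h
  obtain ⟨τ, L⟩ := lev h O h1 h2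
  obtain ⟨h3, hr⟩ := res h L
  exact fin h L h3 hr

end Pool.Agent.Results.MP_4a7e1d_al.FiniteIndex
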